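import Mathlib
import Pool.Agent.Y849.Wy.Fix

set_option autoImplicit false

/-!
# Non-Weyl division subrings of `Q(A₁)`: prescribed centres and fixed rings of involutions
-/

namespace Pool.Agent.Results.MP_7bcc96_al.FixedByInvolution

open Polynomial Pool.Agent.Helper619.Weyl Pool.Agent.Results.MP_7bcc96_al.NonWeylDivision
  Pool.Agent.Y849.Wy

/-- The division subring `D` of `Q` is not PI, is infinite-dimensional over its centre, and is
isomorphic neither to `Q` nor to the quotient division ring of the first Weyl algebra over any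
field of characteristic zero. -/
structure IsExotic {Q : Type} [DivisionRing Q] (D : Subfield Q) : Prop where
  not_pi : ¬ IsPI D
  infinite : ¬ Module.Finite (Subring.center D) D
  not_iso : IsEmpty (D ≃+* Q)
  not_weyl : ∀ (l : Type) [Field l] [CharZero l] (Q' : Type) [DivisionRing Q'] (φ' : A1 l →+* Q'),
    IsQuotientDivisionRing φ' → IsEmpty (D ≃+* Q')

/-- The division subring `D` of `Q` contains the field `f(K)`, and `f(K)` is the centre of `D`. -/
structure HasCentre {Q K : Type} [DivisionRing Q] [Field K] (D : Subfield Q) (f : K →+* Q) :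
    Prop where
  mem : ∀ c, f c ∈ D
  centre : ∀ z ∈ D, (∀ d ∈ D, z * d = d * z) ↔ ∃ c, z = f c

/-- `τ` is an automorphism of `Q` with `τ ∘ τ = id` whose fixed ring is `D`, the element `g` is
not in `D`, `τ g = - g`, and `Q = D + g D`. -/
structure IsFixedRing {Q : Type} [DivisionRing Q] (D : Subfield Q) (τ : Q ≃+* Q) (g : Q) :
    Prop where
  invol : ∀ q, τ (τ q) = q
  fixed : ∀ q, q ∈ D ↔ τ q = q
  notMem : g ∉ D
  neg : τ g = -g
  decomp : ∀ q : Q, ∃ a ∈ D, ∃ b ∈ D, q = a + g * b

/-- Let `Q = Q(A₁(k))`, `char k = 0`. (1) For every subfield `k₀` of `k` that embeds in `ℝ` there is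
a division subring `D` of `Q` that contains `k₀`, has centre exactly `k₀`, is not PI and is not
isomorphic to the quotient division ring of the first Weyl algebra over any field. (2) If `k`
itself embeds in `ℝ`, then such a `D`, with centre `k`, is the fixed ring of an automorphism of
order two of `Q` over `k`, and `Q = D + g D` for some `g`. -/
theorem result (k : Type) [Field k] [CharZero k] :
    (∃ (Q : Type) (_ : DivisionRing Q) (φ : A1 k →+* Q), IsQuotientDivisionRing φ) ∧
    ∀ (Q : Type) [DivisionRing Q] (φ : A1 k →+* Q), IsQuotientDivisionRing φ →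
      (∀ (k₀ : Type) [Field k₀] (j : k₀ →+* k), Nonempty (k₀ →+* ℝ) →
        ∃ D : Subfield Q, IsExotic D ∧ HasCentre D (φ.comp ((algebraMap k (A1 k)).comp j))) ∧
      (Nonempty (k →+* ℝ) → ∃ (D : Subfield Q) (τ : Q ≃+* Q) (g : Q),
        IsExotic D ∧ HasCentre D (φ.comp (algebraMap k (A1 k))) ∧ IsFixedRing D τ g) := by
  refine ⟨?_, ?_⟩
  · obtain ⟨ψ, hψ⟩ := exists_quotient k
    exact ⟨Dv k, inferInstance, ψ, hψ⟩
  intro Q _ φ h
  obtain ⟨F, hF⟩ := exists_equiv k φ h
  constructor
  · rintro k₀ _ j ⟨e⟩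
    obtain ⟨E, hE, -⟩ := exists_map j
    have key : ∀ c : k₀, ((F : Dv k →+* Q).comp E) (polyD k₀ (C c)) =
        (φ.comp ((algebraMap k (A1 k)).comp j)) c := by
      intro c
      show F (E (polyD k₀ (C c))) = φ (algebraMap k (A1 k) (j c))
      rw [hE, Polynomial.map_C, hF]
    obtain ⟨h1, h2, h3, h4, h5⟩ := props k₀ e ((F : Dv k →+* Q).comp E)
    refine ⟨_, ⟨h1, h2, h3 k Q φ h, h3⟩, fun c => ?_, fun z hz => ?_⟩
    · rw [← key]; exact h4 c
    · simp only [← key]; exact h5 z hz
  · rintro ⟨e⟩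
    have key : ∀ c : k, (F : Dv k →+* Q) (polyD k (C c)) = (φ.comp (algebraMap k (A1 k))) c := hF
    obtain ⟨h1, h2, h3, h4, h5⟩ := props k e (F : Dv k →+* Q)
    refine ⟨_, (F.symm.trans (tauE k)).trans F, F (gD k), ⟨h1, h2, h3 k Q φ h, h3⟩,
      ⟨fun c => ?_, fun z hz => ?_⟩, ?_, ?_, ?_, ?_, ?_⟩
    · rw [← key]; exact h4 c
    · simp only [← key]; exact h5 z hz
    · intro q
      show F (tau k (F.symm (F (tau k (F.symm q))))) = q
      rw [F.symm_apply_apply, tau_tau, F.apply_symm_apply]
    · intro q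
      show q ∈ (FixD k).map (F : Dv k →+* Q) ↔ F (tau k (F.symm q)) = q
      constructor
      · rintro ⟨d, hd, rfl⟩
        show F (tau k (F.symm (F d))) = F d
        rw [F.symm_apply_apply, (mem_FixD k d).1 hd]
      · intro hq
        refine ⟨F.symm q, ?_, F.apply_symm_apply q⟩
        show F.symm q ∈ FixD k
        rw [mem_FixD]
        apply F.injective
        rw [hq, F.apply_symm_apply]
    · rintro ⟨d, hd, hdg⟩
      have : d = gD k := F.injective hdg
      exact gD_notMem k (this ▸ hd)
    · show F (tau k (F.symm (F (gD k)))) = -F (gD k)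
      rw [F.symm_apply_apply, tau_gD, map_neg]
    · intro q
      obtain ⟨a, ha, b, hb, hab⟩ := decomp k (F.symm q)
      refine ⟨F a, ⟨a, ha, rfl⟩, F b, ⟨b, hb, rfl⟩, ?_⟩
      rw [← map_mul, ← map_add, ← hab, F.apply_symm_apply]

end Pool.Agent.Results.MP_7bcc96_al.FixedByInvolution
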